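import Mathlib
import Pool.Agent.TH705.DL.Gen
import Pool.Agent.TH705.DL.Opt2

set_option autoImplicit false

/-!
# Montgomery's large values inequality for generic dilates of well-spaced sets
-/

namespace Pool.Agent.Results.MP_71ac24_nt.GenericDilates

open MeasureTheory

/-- (1) For every finite `1`-separated set `S` of reals and every `η > 0` there is a set
`E ⊆ [1,2]` of measure at most `η` such that for all `l ∈ [1,2]` outside `E` and all complex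
coefficients `a` the sum of `|∑_{n ≤ N} a_n n^{i l t}|²` over `t ∈ S` is at most
`28 (1 + log N)³ (N + |S| √(N/η)) ∑_{n ≤ N} |a_n|²`.

(2) If `1 ≤ M` and `M² ≤ N` there is a `1`-separated set `S ⊂ [0, N²/2]` with `|S| M³ ≤ N²` such
that for every `l ∈ [1,2]` there are coefficients bounded by `1`, not all zero, with
`∑_{t ∈ S} |∑_{n ≤ N} a_n n^{i l t}|² ≥ 2^(-20) (N/M)² ∑_{n ≤ N} |a_n|²`. -/
theorem result :
    (∀ N : ℕ, 1 ≤ N → ∀ S : Finset ℝ, (∀ t ∈ S, ∀ u ∈ S, t ≠ u → 1 ≤ |t - u|) →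
      ∀ η : ℝ, 0 < η →
      ∃ E : Set ℝ, MeasurableSet E ∧ E ⊆ Set.Icc 1 2 ∧ volume E ≤ ENNReal.ofReal η ∧
        ∀ l ∈ Set.Icc (1:ℝ) 2, l ∉ E → ∀ a : ℕ → ℂ,
          ∑ t ∈ S, ‖∑ n ∈ Finset.Icc 1 N,
              a n * Complex.exp (Complex.I * ((l * t : ℝ) : ℂ) * (Real.log (n : ℝ) : ℂ))‖ ^ 2 ≤
            28 * (1 + Real.log N) ^ 3 * (N + S.card * Real.sqrt (N / η)) *
              ∑ n ∈ Finset.Icc 1 N, ‖a n‖ ^ 2) ∧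
    (∀ N M : ℕ, 1 ≤ M → M ^ 2 ≤ N →
      ∃ S : Finset ℝ, (∀ t ∈ S, ∀ u ∈ S, t ≠ u → 1 ≤ |t - u|) ∧
        (∀ t ∈ S, 0 ≤ t ∧ 2 * t ≤ N ^ 2) ∧ S.card * M ^ 3 ≤ N ^ 2 ∧
        ∀ l ∈ Set.Icc (1:ℝ) 2, ∃ a : ℕ → ℂ, (∀ n, ‖a n‖ ≤ 1) ∧
          0 < ∑ n ∈ Finset.Icc 1 N, ‖a n‖ ^ 2 ∧
          (1 / 2 ^ 20) * ((N : ℝ) / M) ^ 2 * ∑ n ∈ Finset.Icc 1 N, ‖a n‖ ^ 2 ≤
            ∑ t ∈ S, ‖∑ n ∈ Finset.Icc 1 N,
              a n * Complex.exp (Complex.I * ((l * t : ℝ) : ℂ) * (Real.log (n : ℝ) : ℂ))‖ ^ 2) := by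
  refine ⟨?_, ?_⟩
  · intro N hN S hS η hη
    exact Pool.Agent.TH705.DL.generic N hN S hS η hη
  · intro N M hM hMN
    obtain ⟨S, h1, h2, h3, h4⟩ := Pool.Agent.TH705.DL.bad N M hM hMN
    exact ⟨S, h1, h2, h3, fun l hl => h4 l hl.1 hl.2⟩

end Pool.Agent.Results.MP_71ac24_nt.GenericDilates
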