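import Pool.Agent.TH804.GW5

/-!
# Montgomery's large values conjecture as an `ℓ²` large sieve inequality, after a change of weights

Bourgain showed that the `ℓ²` form of Montgomery's conjecture,
`∑_{t ∈ S} |D(t)|² ≤ C N^ε (N + |S|) ∑ |a_n|²` for all complex coefficients, is false.  Here it is shown that the
conjecture is *equivalent* to this `ℓ²` form for coefficients off a small set of integers: for every `1`-separated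
`S ⊂ [0, T]`, `T ≤ N²`, and `K ≥ 1` there is a set `B` of at most `N / K` integers such that the `ℓ²` form, with a loss
of a factor `K`, holds for ALL complex coefficients which vanish on `B` (5); and also to the `ℓ²` form with weights
`w_n` of mean value `1` which depend on `S` (3), and to the conjecture for coefficients in Hilbert spaces (4).
For each single finite set `S` of reals the best constants in the weighted inequality and in the one for vectors are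
equal (1), and they are at most `3` times the best constant for bounded scalars (2).  The weights and the exceptional
sets must depend on `S`: for weights, or a set of at most `N / 32` integers, which depend on `N` only, the inequality
fails by a factor `≫ N^(1/3)` (6), (7).

Proof.  (1) is Pietsch's factorization theorem (Hahn-Banach) for the operator `(a_n) ↦ (D(t))_{t ∈ S}` from `ℓ^∞` to
`ℓ²`, (2) the little Grothendieck theorem (proved here with the constant `3`, by Khinchine's inequality).  For (5) let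
`B` be the set where `w_n > K`, and conversely decompose the coefficients by the exceptional sets for `K = 2^j`.  For
(6), (7) one takes `a_n = 1` on an interval of `M ≈ N^(1/3)` integers near `n₀ ∈ [N/2, N]` on which the weights are
small and the points `2π n₀ k + l`, `k ≪ n₀ / M²`, `l ≪ n₀ / M`.
-/

set_option autoImplicit false

open Finset

namespace Pool.Agent.Results.MP_71ac24_nt.HilbertianForm

/-- `D(t) = ∑_{n ≤ N} a_n n^{it}` -/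
noncomputable def D (N : ℕ) (a : ℕ → ℂ) (t : ℝ) : ℂ :=
  ∑ n ∈ Icc 1 N, a n * Complex.exp (Complex.I * (t : ℂ) * (Real.log (n : ℝ) : ℂ))

/-- `D(t) = ∑_{n ≤ N} n^{it} a_n` for coefficients in `ℂ^k` with the Euclidean norm -/
noncomputable def vectorD (N : ℕ) {k : ℕ} (a : ℕ → EuclideanSpace ℂ (Fin k)) (t : ℝ) : EuclideanSpace ℂ (Fin k) :=
  ∑ n ∈ Icc 1 N, Complex.exp (Complex.I * (t : ℂ) * (Real.log (n : ℝ) : ℂ)) • a n

/-- `S` is a `1`-separated subset of `[0, T]` -/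
def Separated (T : ℝ) (S : Finset ℝ) : Prop :=
  (∀ t ∈ S, 0 ≤ t ∧ t ≤ T) ∧ ∀ t ∈ S, ∀ u ∈ S, t ≠ u → 1 ≤ |t - u|

/-- Q1 of the problem -/
def Q1 : Prop := ∀ ε : ℝ, 0 < ε → ∃ C : ℝ, 0 < C ∧ ∀ N : ℕ, 1 ≤ N → ∀ T : ℝ, T ≤ (N : ℝ) ^ 2 →
  ∀ a : ℕ → ℂ, (∀ n, ‖a n‖ ≤ 1) → ∀ S : Finset ℝ, Separated T S →
    ∑ t ∈ S, ‖D N a t‖ ^ 2 ≤ C * (N : ℝ) ^ ε * ((N : ℝ) + (S.card : ℝ)) * (N : ℝ)

/-- the weighted `ℓ²` form: for each `S` there are weights of mean value 1, and then all complex coefficients are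
allowed -/
def WeightedForm : Prop := ∀ ε : ℝ, 0 < ε → ∃ C : ℝ, 0 < C ∧ ∀ N : ℕ, 1 ≤ N → ∀ T : ℝ, T ≤ (N : ℝ) ^ 2 →
  ∀ S : Finset ℝ, Separated T S → ∃ w : ℕ → ℝ, (∀ n, 0 ≤ w n) ∧ ∑ n ∈ Icc 1 N, w n = N ∧ ∀ a : ℕ → ℂ,
    ∑ t ∈ S, ‖D N a t‖ ^ 2 ≤ C * (N : ℝ) ^ ε * ((N : ℝ) + (S.card : ℝ)) * ∑ n ∈ Icc 1 N, w n * ‖a n‖ ^ 2

/-- Q1 for coefficients in finite dimensional Hilbert spaces, with constants independent of the dimension -/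
def VectorForm : Prop := ∀ ε : ℝ, 0 < ε → ∃ C : ℝ, 0 < C ∧ ∀ N : ℕ, 1 ≤ N → ∀ T : ℝ, T ≤ (N : ℝ) ^ 2 →
  ∀ (k : ℕ) (a : ℕ → EuclideanSpace ℂ (Fin k)), (∀ n, ‖a n‖ ≤ 1) → ∀ S : Finset ℝ, Separated T S →
    ∑ t ∈ S, ‖vectorD N a t‖ ^ 2 ≤ C * (N : ℝ) ^ ε * ((N : ℝ) + (S.card : ℝ)) * (N : ℝ)

/-- the `ℓ²` form for all complex coefficients which vanish on a set `B` of at most `N / K` integers, with a loss of a
factor `K`; the set `B` depends on `N`, `S` and `K` -/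
def ExceptionalForm : Prop := ∀ ε : ℝ, 0 < ε → ∃ C : ℝ, 0 < C ∧ ∀ N : ℕ, 1 ≤ N → ∀ T : ℝ, T ≤ (N : ℝ) ^ 2 →
  ∀ S : Finset ℝ, Separated T S → ∀ K : ℝ, 1 ≤ K → ∃ B : Finset ℕ, B ⊆ Icc 1 N ∧ K * B.card ≤ N ∧
    ∀ a : ℕ → ℂ, (∀ n ∈ B, a n = 0) →
      ∑ t ∈ S, ‖D N a t‖ ^ 2 ≤ C * (N : ℝ) ^ ε * K * ((N : ℝ) + (S.card : ℝ)) * ∑ n ∈ Icc 1 N, ‖a n‖ ^ 2

theorem result :
    -- (1) for each set of points: weights and vectors
    (∀ N : ℕ, 1 ≤ N → ∀ (S : Finset ℝ) (Q : ℝ),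
      (∀ (k : ℕ) (a : ℕ → EuclideanSpace ℂ (Fin k)), (∀ n, ‖a n‖ ≤ 1) → ∑ t ∈ S, ‖vectorD N a t‖ ^ 2 ≤ Q) ↔
        ∃ p : ℕ → ℝ, (∀ n, 0 ≤ p n) ∧ ∑ n ∈ Icc 1 N, p n = 1 ∧
          ∀ a : ℕ → ℂ, ∑ t ∈ S, ‖D N a t‖ ^ 2 ≤ Q * ∑ n ∈ Icc 1 N, p n * ‖a n‖ ^ 2) ∧
    -- (2) for each set of points: bounded scalars and weights
    (∀ N : ℕ, 1 ≤ N → ∀ (S : Finset ℝ) (Q : ℝ),
      (∀ a : ℕ → ℂ, (∀ n, ‖a n‖ ≤ 1) → ∑ t ∈ S, ‖D N a t‖ ^ 2 ≤ Q) →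
        ∃ p : ℕ → ℝ, (∀ n, 0 ≤ p n) ∧ ∑ n ∈ Icc 1 N, p n = 1 ∧
          ∀ a : ℕ → ℂ, ∑ t ∈ S, ‖D N a t‖ ^ 2 ≤ 3 * Q * ∑ n ∈ Icc 1 N, p n * ‖a n‖ ^ 2) ∧
    -- (3), (4), (5) three equivalent forms of the conjecture
    (Q1 ↔ WeightedForm) ∧ (Q1 ↔ VectorForm) ∧ (Q1 ↔ ExceptionalForm) ∧
    -- (6) the weights must depend on the set
    (∃ c : ℝ, 0 < c ∧ ∃ N₀ : ℕ, ∀ N : ℕ, N₀ ≤ N → ∀ w : ℕ → ℝ, (∀ n, 0 ≤ w n) → ∑ n ∈ Icc 1 N, w n ≤ N →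
      ∃ S : Finset ℝ, Separated ((N : ℝ) ^ 2) S ∧ ∃ a : ℕ → ℂ, (∀ n, ‖a n‖ ≤ 1) ∧
        0 < ∑ t ∈ S, ‖D N a t‖ ^ 2 ∧
        c * (N : ℝ) ^ (1 / 3 : ℝ) * ((N : ℝ) + (S.card : ℝ)) * ∑ n ∈ Icc 1 N, w n * ‖a n‖ ^ 2 ≤
          ∑ t ∈ S, ‖D N a t‖ ^ 2) ∧
    -- (7) the exceptional sets must depend on the set
    (∃ c : ℝ, 0 < c ∧ ∃ N₀ : ℕ, ∀ N : ℕ, N₀ ≤ N → ∀ B : Finset ℕ, B ⊆ Icc 1 N → 32 * B.card ≤ N →
      ∃ S : Finset ℝ, Separated ((N : ℝ) ^ 2) S ∧ ∃ a : ℕ → ℂ, (∀ n, ‖a n‖ ≤ 1) ∧ (∀ n ∈ B, a n = 0) ∧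
        0 < ∑ t ∈ S, ‖D N a t‖ ^ 2 ∧
        c * (N : ℝ) ^ (1 / 3 : ℝ) * ((N : ℝ) + (S.card : ℝ)) * ∑ n ∈ Icc 1 N, ‖a n‖ ^ 2 ≤
          ∑ t ∈ S, ‖D N a t‖ ^ 2) := by
  have e1 : Q1 ↔ Pool.Agent.TH804.GW.MC := by
    constructor
    · intro h ε hε
      obtain ⟨C, hC, h1⟩ := h ε hε
      exact ⟨C, hC, fun N hN T hT S hS a ha => h1 N hN T hT a ha S hS⟩
    · intro h ε hε
      obtain ⟨C, hC, h1⟩ := h ε hε
      exact ⟨C, hC, fun N hN T hT a ha S hS => h1 N hN T hT S hS a ha⟩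
  have e2 : WeightedForm ↔ Pool.Agent.TH804.GW.WC := Iff.rfl
  have e3 : VectorForm ↔ Pool.Agent.TH804.GW.VC := by
    constructor
    · intro h ε hε
      obtain ⟨C, hC, h1⟩ := h ε hε
      exact ⟨C, hC, fun N hN T hT S hS k a ha => h1 N hN T hT k a ha S hS⟩
    · intro h ε hε
      obtain ⟨C, hC, h1⟩ := h ε hε
      exact ⟨C, hC, fun N hN T hT k a ha S hS => h1 N hN T hT S hS k a ha⟩
  have e4 : ExceptionalForm ↔ Pool.Agent.TH804.GW.EC := Iff.rfl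
  refine ⟨?_, ?_, ?_, ?_, ?_, ?_, ?_⟩
  · intro N hN S Q
    exact Pool.Agent.TH804.GW.weights_iff_vectors S (Icc 1 N) Pool.Agent.TH804.GW.E ⟨1, by simpa using hN⟩
  · intro N hN S Q hQ
    exact Pool.Agent.TH804.GW.weights S (Icc 1 N) Pool.Agent.TH804.GW.E ⟨1, by simpa using hN⟩ hQ
  · rw [e1, e2]
    exact ⟨Pool.Agent.TH804.GW.WC_of_MC, fun h => Pool.Agent.TH804.GW.MC_of_VC (Pool.Agent.TH804.GW.VC_of_WC h)⟩
  · rw [e1, e3]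
    exact ⟨fun h => Pool.Agent.TH804.GW.VC_of_WC (Pool.Agent.TH804.GW.WC_of_MC h), Pool.Agent.TH804.GW.MC_of_VC⟩
  · rw [e1, e4]
    exact ⟨fun h => Pool.Agent.TH804.GW.EC_of_WC (Pool.Agent.TH804.GW.WC_of_MC h), Pool.Agent.TH804.GW.MC_of_EC⟩
  · obtain ⟨c, hc, N₀, h⟩ := Pool.Agent.TH804.GW.no_weights
    exact ⟨c, hc, N₀, h⟩
  · obtain ⟨c, hc, N₀, h⟩ := Pool.Agent.TH804.GW.no_exceptional
    exact ⟨c, hc, N₀, h⟩

end Pool.Agent.Results.MP_71ac24_nt.HilbertianForm
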