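import Mathlib
import Pool.Agent.TH705.DL.ChB

/-!
# The large sieve bound `N + |S|` with generic frequencies, all coefficients

Cut `[1, N H]` into `N` blocks of `H` consecutive integers and choose one integer
`n_j = j H + x_j + 1` in each block.  For every finite family `F` of finite `1`-separated sets
of reals of diameter at most `N H`, all but a proportion `δ` of the `H ^ N` choices satisfy
`∑_{t ∈ S} |∑_j a_j n_j ^ (-i t)| ^ 2 ≤
  (24 (1 + log N H) ^ 3 N + 10 |S| log (|S| |F| / δ)) ∑ |a_j| ^ 2`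
for all `S ∈ F` and all complex `a_j`.
-/

set_option autoImplicit false

namespace Pool.Agent.Results.MP_71ac24_nt.RandomSupports

open Finset

theorem result (N H : ℕ) (hN : 1 ≤ N) (hH : 1 ≤ H) (F : Finset (Finset ℝ)) (δ : ℝ)
    (hδ : 0 < δ) (hδ1 : δ ≤ 1)
    (hF : ∀ S ∈ F, S.Nonempty ∧ (∀ t ∈ S, ∀ u ∈ S, t ≠ u → 1 ≤ |t - u|) ∧
      ∃ y : ℝ, ∀ t ∈ S, y ≤ t ∧ t ≤ y + N * H) :
    ({x : Fin N → Fin H | ¬ ∀ S ∈ F, ∀ a : Fin N → ℂ,
      ∑ t ∈ S, ‖∑ j, a j *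
        (((j:ℕ) * H + (x j : ℕ) + 1 : ℕ) : ℂ) ^ (-((t : ℂ) * Complex.I))‖ ^ 2 ≤
      (24 * (1 + Real.log (N * H)) ^ 3 * N + 10 * S.card * Real.log (S.card * F.card / δ)) *
        ∑ j, ‖a j‖ ^ 2}.ncard : ℝ) ≤ δ * (H : ℝ) ^ N := by
  classical
  refine le_trans (le_of_eq ?_) (Pool.Agent.TH705.DL.Rnd.supports hN hH F δ hδ hδ1 hF)
  rw [Set.ncard_eq_toFinset_card']
  congr 2
  ext x
  simp only [Set.mem_toFinset, Set.mem_ofPred_eq, mem_filter, mem_univ, true_and]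

end Pool.Agent.Results.MP_71ac24_nt.RandomSupports
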