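import Pool.Agent.TH961.AP.GenR2

set_option autoImplicit false

/-!
The double sum over differences for generic dilates of an arbitrary `1`-separated set `A`:
for all `x ∈ [Λ, 2Λ]` outside one set of measure at most `ηΛ`, all `|a_n| ≤ 1` and all real `v`,

(1) `∑_{t,u ∈ A} |D(v + x(t-u))|² ≤ N |A|² + (9/η) N² |A| (1 + log |A|)(1 + log N)`;
(2) for every `K > 0` at most `|A|/K` of the translates `v - xu + xA`, `u ∈ A`, violate
`∑_{t ∈ A} |D(v + x(t-u))|² ≤ K (N |A| + (9/η) N² (1 + log |A|)(1 + log N))`.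
-/

namespace Pool.Agent.Results.MP_71ac24_nt.SelfTranslates

open Finset MeasureTheory

theorem result (N : ℕ) (hN : 1 ≤ N) (A : Finset ℝ)
    (hA : ∀ s ∈ A, ∀ t ∈ A, s ≠ t → 1 ≤ |s - t|) (Λ η : ℝ) (hΛ : 1 ≤ Λ) (hη : 0 < η) :
    ∃ E : Set ℝ, MeasurableSet E ∧ volume E ≤ ENNReal.ofReal (η * Λ) ∧
      ∀ x ∈ Set.Icc Λ (2 * Λ), x ∉ E → ∀ (a : ℕ → ℂ) (v : ℝ), (∀ n, ‖a n‖ ≤ 1) →
        (∑ t ∈ A, ∑ u ∈ A, ‖∑ n ∈ Finset.Icc 1 N,
            a n * (n : ℂ) ^ (((v + x * (t - u) : ℝ) : ℂ) * Complex.I)‖ ^ 2 ≤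
          N * (A.card : ℝ) ^ 2 + 9 / η * (N : ℝ) ^ 2 * A.card * (1 + Real.log A.card) *
            (1 + Real.log N)) ∧
        ∀ K : ℝ, 0 < K → ∀ B ⊆ A,
          (∀ u ∈ B, K * (N * (A.card : ℝ) + 9 / η * (N : ℝ) ^ 2 * (1 + Real.log A.card) *
            (1 + Real.log N)) < ∑ t ∈ A, ‖∑ n ∈ Finset.Icc 1 N,
              a n * (n : ℂ) ^ (((v + x * (t - u) : ℝ) : ℂ) * Complex.I)‖ ^ 2) →
          K * (B.card : ℝ) ≤ A.card := by
  classical
  obtain ⟨E, hE1, hE2, hE3⟩ := Pool.Agent.TH961.AP.self_translates N hN A hA Λ η hΛ hη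
  refine ⟨E, hE1, hE2, ?_⟩
  intro x hx hxE a v ha
  have key : ∑ t ∈ A, ∑ u ∈ A, ‖∑ n ∈ Finset.Icc 1 N,
            a n * (n : ℂ) ^ (((v + x * (t - u) : ℝ) : ℂ) * Complex.I)‖ ^ 2 ≤
          N * (A.card : ℝ) ^ 2 + 9 / η * (N : ℝ) ^ 2 * A.card * (1 + Real.log A.card) *
            (1 + Real.log N) := by
    have h := hE3 x hx hxE a (-v) ha
    refine le_trans (le_of_eq ?_) h
    rw [sum_comm]
    apply sum_congr rfl
    intro t _
    apply sum_congr rfl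
    intro u _
    unfold Pool.Agent.TH961.AP.DP
    congr 2
    apply sum_congr rfl
    intro n _
    congr 2
    push_cast
    ring
  refine ⟨key, ?_⟩
  intro K hK B hB hlarge
  rw [sum_comm] at key
  set Y : ℝ := N * (A.card : ℝ) + 9 / η * (N : ℝ) ^ 2 * (1 + Real.log A.card) *
            (1 + Real.log N) with hY
  have hNr : (1:ℝ) ≤ N := by exact_mod_cast hN
  have hlN : 0 ≤ Real.log N := Real.log_nonneg hNr
  have hlA : 0 ≤ Real.log A.card := Real.log_natCast_nonneg _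
  have hY0 : 0 < Y := by positivity
  have h1 : (B.card : ℝ) * (K * Y) ≤ A.card * Y := by
    calc (B.card : ℝ) * (K * Y) = ∑ u ∈ B, K * Y := by rw [sum_const, nsmul_eq_mul]
      _ ≤ ∑ u ∈ B, ∑ t ∈ A, ‖∑ n ∈ Finset.Icc 1 N,
              a n * (n : ℂ) ^ (((v + x * (t - u) : ℝ) : ℂ) * Complex.I)‖ ^ 2 :=
          sum_le_sum (fun u hu => (hlarge u hu).le)
      _ ≤ ∑ u ∈ A, ∑ t ∈ A, ‖∑ n ∈ Finset.Icc 1 N,
              a n * (n : ℂ) ^ (((v + x * (t - u) : ℝ) : ℂ) * Complex.I)‖ ^ 2 :=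
          sum_le_sum_of_subset_of_nonneg hB
            (fun u _ _ => sum_nonneg (fun t _ => by positivity))
      _ ≤ _ := key
      _ = A.card * Y := by rw [hY]; ring
  have h2 : (K * B.card) * Y ≤ A.card * Y := by linarith
  exact le_of_mul_le_mul_right h2 hY0

end Pool.Agent.Results.MP_71ac24_nt.SelfTranslates
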